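import Pool.Agent.Helper56.LD.Goals

/-!
# CO3: basic facts on `mu`
-/

set_option autoImplicit false

namespace Pool.Agent.Helper90.LD

open Pool.Agent.Helper56.LD

/-- One step down in the main part. -/
theorem step {a : ℕ → Lab} (ha : a ∈ ES) {j : ℕ} (h1 : IsMain (a j)) :
    ∃ τ, a (j + 1) = Sum.inl τ ∧ (a j = Sum.inl τ ∨ (a j = Sum.inl (τ + 1) ∧ ∃ i : ℕ, j + 1 = 4 ^ i)) := by
  obtain ⟨σ, hσ⟩ := h1
  have h := ha j
  rw [hσ] at h
  rcases hx : a (j + 1) with τ | q
  · rw [hx] at h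
    refine ⟨τ, rfl, ?_⟩
    rcases h with h | h
    · left
      rw [hσ, h]
    · right
      exact ⟨by rw [hσ, h.1], h.2⟩
  · rw [hx] at h
    exact absurd h (by simp [Tr])

/-- The label does not change if no power of four is crossed. -/
theorem const {a : ℕ → Lab} (ha : a ∈ ES) {N x : ℕ} (hmain : ∀ j, N ≤ j → IsMain (a j))
    (hx : N ≤ x) : ∀ y, x ≤ y → (∀ h, x < h → h ≤ y → ¬ ∃ i : ℕ, h = 4 ^ i) → a x = a y := by
  intro y hxy
  induction y, hxy using Nat.le_induction with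
  | base => intro _; rfl
  | succ y hxy ih =>
    intro hno
    rw [ih (fun h h1 h2 => hno h h1 (by omega))]
    obtain ⟨τ, h1, h2 | h2⟩ := step ha (hmain y (by omega))
    · rw [h1, h2]
    · exact absurd h2.2 (hno (y + 1) (by omega) le_rfl)

theorem pow_between {l i : ℕ} (h1 : 16 * l + 4 < 4 ^ i) (h2 : 4 ^ i ≤ 16 * l + 20) :
    4 ^ i = 16 * l + 16 ∧ ∃ k : ℕ, l + 1 = 4 ^ k := by
  rcases i with _ | _ | k
  · simp at h1
  · simp at h1
  · have e : 4 ^ (k + 1 + 1) = 16 * 4 ^ k := by ring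
    rw [e] at h1 h2 ⊢
    have h3 : 4 ^ k = l + 1 := by omega
    exact ⟨by omega, k, h3.symm⟩

theorem step16 {a : ℕ → Lab} (ha : a ∈ ES) {N x l : ℕ} (hmain : ∀ j, N ≤ j → IsMain (a j))
    (hx : N ≤ x) (h1 : 16 * l + 4 ≤ x) (h2 : x ≤ 16 * l + 20) :
    ∃ τ, a (16 * l + 20) = Sum.inl τ ∧
      (a x = Sum.inl τ ∨ (a x = Sum.inl (τ + 1) ∧ ∃ i : ℕ, l + 1 = 4 ^ i)) := by
  by_cases hc : 16 * l + 16 ≤ x
  · obtain ⟨τ, hτ⟩ := hmain (16 * l + 20) (by omega)
    refine ⟨τ, hτ, Or.inl ?_⟩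
    rw [const ha hmain hx (16 * l + 20) h2 ?_, hτ]
    rintro h h3 h4 ⟨i, rfl⟩
    have := (pow_between (l := l) (i := i) (by omega) h4).1
    omega
  · have e1 : a x = a (16 * l + 15) := by
      apply const ha hmain hx (16 * l + 15) (by omega)
      rintro h h3 h4 ⟨i, rfl⟩
      have := (pow_between (l := l) (i := i) (by omega) (by omega)).1
      omega
    have e2 : a (16 * l + 16) = a (16 * l + 20) := by
      apply const ha hmain (by omega) (16 * l + 20) (by omega)
      rintro h h3 h4 ⟨i, rfl⟩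
      have := (pow_between (l := l) (i := i) (by omega) (by omega)).1
      omega
    obtain ⟨τ, h3, h4⟩ := step ha (j := 16 * l + 15) (hmain _ (by omega))
    have h3' : a (16 * l + 16) = Sum.inl τ := h3
    refine ⟨τ, by rw [← e2, h3'], ?_⟩
    rcases h4 with h4 | ⟨h4, i, h5⟩
    · left
      rw [e1, h4]
    · right
      refine ⟨by rw [e1, h4], ?_⟩
      have h5' : 4 ^ i = 16 * l + 16 := by omega
      exact (pow_between (l := l) (i := i) (by omega) (by omega)).2

theorem muS (hES : StmtES) : StmtMu := by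
  intro a ha N hN
  have hmain : ∀ j, N ≤ j → IsMain (a j) := fun j hj => hES.2.2.1 a ha N j hj hN
  refine ⟨?_, ?_, ?_, ?_⟩
  · intro l
    have e0 : 16 * (l + 1) + 4 = 16 * l + 20 := by ring
    show Tr (l + 1) (dec (a (max (16 * (l + 1) + 4) N))) (dec (a (max (16 * l + 4) N)))
    rw [e0]
    by_cases hc : 16 * l + 20 ≤ N
    · rw [max_eq_right hc, max_eq_right (by omega : 16 * l + 4 ≤ N)]
      obtain ⟨τ, hτ⟩ := hN
      rw [hτ]
      exact Or.inl rfl
    · rw [max_eq_left (by omega : N ≤ 16 * l + 20)]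
      obtain ⟨τ, h1, h2⟩ := step16 ha (x := max (16 * l + 4) N) (l := l) hmain
        (le_max_right _ _) (le_max_left _ _) (max_le (by omega) (by omega))
      rw [h1]
      rcases h2 with h2 | ⟨h2, h3⟩
      · rw [h2]
        exact Or.inl rfl
      · rw [h2]
        have h4 : ∀ τ : Fin 4, τ + 1 - 1 = τ - 1 + 1 := by decide
        exact Or.inr ⟨h4 τ, h3⟩
  · intro l
    obtain ⟨τ, hτ⟩ := hmain (max (16 * l + 4) N) (le_max_right _ _)
    exact ⟨τ - 1, by simp only [mu, hτ, dec]⟩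
  · intro hno
    obtain ⟨τ, h1, h2 | h2⟩ := step ha hN
    · have e : a (N + 1) = a N := by rw [h1, h2]
      refine ⟨e, ?_⟩
      funext l
      unfold mu
      by_cases hc : 16 * l + 4 ≤ N
      · rw [max_eq_right (by omega : 16 * l + 4 ≤ N + 1), max_eq_right hc, e]
      · rw [max_eq_left (by omega : N + 1 ≤ 16 * l + 4), max_eq_left (by omega : N ≤ 16 * l + 4)]
    · exact absurd h2.2 hno
  · intro l hl
    unfold mu
    rw [max_eq_left (by omega : N + 1 ≤ 16 * l + 4), max_eq_left (by omega : N ≤ 16 * l + 4)]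

end Pool.Agent.Helper90.LD
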