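import Pool.Agent.Helper56.LD.Goals
import Pool.Agent.Helper56.LD.Basics

/-!
# SP3: the push-up retractions
-/

set_option autoImplicit false

namespace Pool.Agent.Helper90.LD

open Set Filter Topology
open Pool.Agent.Helper56.LD

section gen

variable {L Ω : Type} [DecidableEq L] [DecidableEq Ω]

/-- Points at or above the hub of height `n` are not moved. -/
theorem push_low (lt : ℕ → L → Ω) (E : Set (ℕ → L)) (n : ℕ) (x : Amb L Ω)
    (hx : x ∈ MSet lt E) (h : x.1 ≤ hgt n 1) : push n x = x := by
  have key : ∀ (j : ℕ) (l : L), x.2.1 j l ≤ (if j < n then 0 else 1) := by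
    intro j l
    rcases (fst_nonneg hx).eq_or_lt with h0 | h0
    · obtain ⟨ω, r, hr, rfl⟩ := exists_core_rep hx h0.ge
      rw [cpt_wt]
      split_ifs <;> norm_num
    · obtain ⟨m, e, w, he, hw, hw1, rfl⟩ := exists_rep hx h0
      have hmn : n ≤ m := level_le_of_hgt_le hw le_rfl h
      simp only [pt_wt]
      by_cases hj : j < n
      · rw [if_pos hj, wt_lt (by omega)]
        simp
      · rw [if_neg hj]
        split_ifs
        · exact wt_le_one hw1
        · norm_num
  refine amb_ext (min_eq_left h) (fun j l => min_eq_left (key j l)) (fun ω => ?_)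
  change (if x.1 ≤ hgt n 1 then x.2.2 ω else 0) = x.2.2 ω
  rw [if_pos h]

/-- Points below the hub of height `n` go to that hub. -/
theorem push_high (lt : ℕ → L → Ω) (n : ℕ) (e : ℕ → L) (m : ℕ) (w : ℝ)
    (hw : w ∈ Icc (0 : ℝ) 1) (h : hgt n 1 ≤ hgt m w) :
    push n (pt lt m e w) = pt lt n e 1 := by
  have main : ∀ (m : ℕ) (w : ℝ), 0 < w → w ≤ 1 → hgt n 1 ≤ hgt m w →
      push n (pt lt m e w) = pt lt n e 1 := by
    intro m w hw0 hw1 h
    have hmn : m ≤ n := level_le_of_hgt_le one_pos hw1 h
    refine amb_ext (min_eq_right h) (fun j l => ?_) (fun ω => ?_)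
    · change min (if e j = l then wt m w j else 0) (if j < n then 0 else 1)
        = if e j = l then wt n 1 j else 0
      by_cases hl : e j = l
      · rw [if_pos hl, if_pos hl]
        by_cases hj : j < n
        · rw [if_pos hj, wt_lt hj, min_eq_right (wt_nonneg hw0.le)]
        · rw [if_neg hj]
          push Not at hj
          have h1 : wt n 1 j = 1 := by
            rcases hj.eq_or_lt with h' | h'
            · rw [← h', wt_eq]
            · exact wt_gt h'
          have h2 : wt m w j = 1 := by
            rcases (hmn.trans hj).eq_or_lt with h' | h'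
            · have hmn' : m = n := by omega
              subst hmn'
              rw [← h', wt_eq]
              exact le_antisymm hw1 (hgt_le_iff.1 h)
            · exact wt_gt h'
          rw [h1, h2, min_self]
      · rw [if_neg hl, if_neg hl]
        split_ifs <;> simp
    · change (if hgt m w ≤ hgt n 1 then (if 1 ≤ m ∧ lt m (e m) = ω then tent w else 0) else 0)
        = if 1 ≤ n ∧ lt n (e n) = ω then tent 1 else 0
      by_cases h' : hgt m w ≤ hgt n 1
      · obtain ⟨_, h2⟩ := hgt_inj hw0 hw1 one_pos le_rfl (le_antisymm h' h)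
        rw [h2, tent_one]
        simp
      · rw [if_neg h', tent_one]
        simp
  rcases hw.1.eq_or_lt with h0 | h0
  · subst h0
    rw [pt_zero]
    exact main (m + 1) 1 one_pos le_rfl (by rw [← hgt_zero_succ]; exact h)
  · exact main m w h0 hw.2 h

/-- The star part vanishes at hub height. -/
theorem star_zero (lt : ℕ → L → Ω) (E : Set (ℕ → L)) (n : ℕ) (x : Amb L Ω)
    (hx : x ∈ MSet lt E) (h : x.1 = hgt n 1) (ω : Ω) : x.2.2 ω = 0 := by
  have h0 : 0 < x.1 := by
    rw [h]
    exact hgt_pos zero_le_one
  obtain ⟨m, e, w, he, hw, hw1, rfl⟩ := exists_rep hx h0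
  obtain ⟨_, h2⟩ := hgt_inj hw hw1 one_pos le_rfl h
  simp [h2, tent_one]

theorem push_maps (lt : ℕ → L → Ω) (E : Set (ℕ → L)) (n : ℕ) :
    MapsTo (push n) (MSet lt E) (MSet lt E) := by
  intro x hx
  by_cases h : x.1 ≤ hgt n 1
  · rw [push_low lt E n x hx h]
    exact hx
  · push Not at h
    have h0 : 0 < x.1 := (hgt_pos zero_le_one).trans h
    obtain ⟨m, e, w, he, hw, hw1, rfl⟩ := exists_rep hx h0
    rw [push_high lt n e m w ⟨hw.le, hw1⟩ h.le]
    exact pt_mem lt n he ⟨zero_le_one, le_rfl⟩

theorem push_cont (lt : ℕ → L → Ω) (E : Set (ℕ → L)) (n : ℕ) :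
    ContinuousOn (push n) (MSet lt E) := by
  have c1 : Continuous (fun x : Amb L Ω => min x.1 (hgt n 1)) :=
    continuous_fst.min continuous_const
  have c2 : Continuous (fun x : Amb L Ω => fun (j : ℕ) (l : L) =>
      min (x.2.1 j l) (if j < n then 0 else 1)) := by
    refine continuous_pi fun j => continuous_pi fun l => ?_
    have : Continuous (fun x : Amb L Ω => x.2.1 j l) :=
      (continuous_apply l).comp ((continuous_apply j).comp (continuous_fst.comp continuous_snd))
    exact this.min continuous_const
  have c3 : ContinuousOn (fun x : Amb L Ω => fun ω => if x.1 ≤ hgt n 1 then x.2.2 ω else 0)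
      (MSet lt E) := by
    refine continuousOn_pi.2 fun ω => ?_
    refine ContinuousOn.if ?_ ?_ ?_
    · rintro x ⟨hx, hf⟩
      have h := frontier_le_subset_eq (f := fun x : Amb L Ω => x.1) (g := fun _ => hgt n 1)
        continuous_fst continuous_const hf
      exact star_zero lt E n x hx h ω
    · have : Continuous (fun x : Amb L Ω => x.2.2 ω) :=
        (continuous_apply ω).comp (continuous_snd.comp continuous_snd)
      exact this.continuousOn
    · exact continuousOn_const
  exact c1.continuousOn.prodMk (c2.continuousOn.prodMk c3)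

end gen

theorem stmtPush : StmtPush := by
  intro L Ω _ _ _ _ _ _ lt E n
  exact ⟨push_cont lt E n, push_maps lt E n, fun x hx h => push_low lt E n x hx h,
    fun e _ m w hw h => push_high lt n e m w hw h⟩

end Pool.Agent.Helper90.LD
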